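import Pool.Agent.Helper77.PPO.Goals1
import Pool.Agent.Helper30.RL.SQR
import Pool.Agent.Helper88.RD.SLG
import Pool.Agent.Helper90.RP.SUB

/-!
# Project PP (MP_fc6b1e_nt), packet PPO-O_SUB: the twisted Selmer group over `L` is a stable subgroup
-/

namespace Pool.Agent.Helper48.PPO

open NumberField Polynomial Module IsDedekindDomain Pool.Agent.Helper51.SigLeo
open Pool.Agent.Helper51.RP Pool.Agent.Helper77.PPO
open Pool.Agent.Helper90.RP (exists_pull loc_pow loc_one loc_inv loc_mul loc_delta)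
open Pool.Agent.Helper88.RD (ordv_mul ordv_inv ordv_one ordv_pow locPow_mul locPow_pow locPow_inv
  locPow_mul_pow)

section loc

variable {p : ℕ} {M : Type} [Field M] [NumberField M] {v : HeightOneSpectrum (𝓞 M)} {a : M}

theorem locAt_mul {x y : Mˣ} (hx : LocAt p v a (x : M)) (hy : LocAt p v a (y : M)) :
    LocAt p v a ((x * y : Mˣ) : M) := by
  refine ⟨fun h => ?_, fun h => ?_⟩
  · rw [ordv_mul]
    exact dvd_add (hx.1 h) (hy.1 h)
  · obtain ⟨i, hi⟩ := hx.2 h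
    obtain ⟨j, hj⟩ := hy.2 h
    refine ⟨i + j, ?_⟩
    have h1 := locPow_mul hi hj
    have e : (x : M) * ((-1) ^ (p - 1) * a) ^ i * ((y : M) * ((-1) ^ (p - 1) * a) ^ j) =
        ((x * y : Mˣ) : M) * ((-1) ^ (p - 1) * a) ^ (i + j) := by
      rw [Units.val_mul, pow_add]
      ring
    rwa [e] at h1

theorem locAt_pow (y : Mˣ) : LocAt p v a ((y ^ p : Mˣ) : M) := by
  refine ⟨fun _ => ?_, fun _ => ⟨0, ?_⟩⟩
  · rw [ordv_pow]
    exact dvd_mul_right _ _
  · rw [pow_zero, mul_one, Units.val_pow_eq_pow_val]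
    exact locPow_pow v y.ne_zero

theorem locAt_one : LocAt p v a ((1 : Mˣ) : M) := by
  have h := locAt_pow (p := p) (v := v) (a := a) (1 : Mˣ)
  rwa [one_pow] at h

theorem locAt_inv (hp : 0 < p) (ha : a ≠ 0) {x : Mˣ} (hx : LocAt p v a (x : M)) :
    LocAt p v a ((x⁻¹ : Mˣ) : M) := by
  refine ⟨fun h => ?_, fun h => ?_⟩
  · rw [ordv_inv]
    exact (dvd_neg).2 (hx.1 h)
  · obtain ⟨i, hi⟩ := hx.2 h
    have h0 : (-1) ^ (p - 1) * a ≠ 0 := mul_ne_zero (pow_ne_zero _ (by simp)) ha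
    unfold Tame
    generalize (-1) ^ (p - 1) * a = b at *
    refine ⟨(p - 1) * i, ?_⟩
    have h1 := locPow_inv hi
    refine locPow_mul_pow (c := (b ^ i)⁻¹) ?_
    have e : ((x⁻¹ : Mˣ) : M) * b ^ ((p - 1) * i) * (b ^ i)⁻¹ ^ p = ((x : M) * b ^ i)⁻¹ := by
      have h2 : (b ^ i) ^ p = b ^ ((p - 1) * i) * b ^ i := by
        rw [← pow_mul, ← pow_add]
        congr 1
        obtain ⟨q, rfl⟩ : ∃ q, p = q + 1 := ⟨p - 1, by omega⟩
        simp only [Nat.add_sub_cancel]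
        ring
      rw [inv_pow, h2, Units.val_inv_eq_inv_val, mul_inv, mul_inv]
      have h3 : b ^ ((p - 1) * i) ≠ 0 := pow_ne_zero _ h0
      field_simp
    rwa [e]

theorem locAt_aut {K : Type} [Field K] [Algebra K M] (f : M ≃ₐ[K] M)
    {w : HeightOneSpectrum (𝓞 M)} (hw : ∀ y : M, v.valuation M (f y) = w.valuation M y)
    (ha : f a = a) {x : M} (hx : LocAt p w a x) : LocAt p v a (f x) := by
  have e : ∀ y : M, ordv v (f y) = ordv w y := by
    intro y
    unfold ordv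
    rw [hw]
  have ea : ordv v a = ordv w a := by
    rw [← e a, ha]
  refine ⟨fun h => ?_, fun h => ?_⟩
  · rw [e]
    exact hx.1 (ea ▸ h)
  · rw [ea] at h
    obtain ⟨i, y, hy⟩ := hx.2 h
    refine ⟨i, f y, ?_⟩
    have e2 : f x * ((-1) ^ (p - 1) * a) ^ i * (f y) ^ p - 1 =
        f (x * ((-1) ^ (p - 1) * a) ^ i * y ^ p - 1) := by
      simp only [map_sub, map_mul, map_pow, map_one, map_neg, ha]
    rw [e2, hw]
    exact hy

end loc

theorem o_sub : Pool.Agent.Helper77.PPO.O_SUB := by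
  intro p _ k _ _ _ Lg n K K₁ L L₁ _ _ _ _ _ _ _ _ _ _ _ _ _ _ _ hS T a ha
  have hp : 0 < p := (Fact.out : p.Prime).pos
  have ha' : algebraMap K₁ L₁ a ≠ 0 := by
    intro h
    exact ha ((map_eq_zero_iff _ (algebraMap K₁ L₁).injective).1 h)
  refine ⟨{ carrier := {x | SelO Lg (above T : Set (L →+* k)) (algebraMap K₁ L₁ a) x}
            one_mem' := ?_
            mul_mem' := ?_
            inv_mem' := ?_ }, fun x ↦ Iff.rfl, ?_, ?_⟩
  · rintro x y ⟨hx1, hx2⟩ ⟨hy1, hy2⟩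
    refine ⟨fun W => ?_, loc_mul Lg hx2 hy2⟩
    have h := locAt_mul (x := Units.map (algebraMap L L₁ : L →* L₁) x)
      (y := Units.map (algebraMap L L₁ : L →* L₁) y) (hx1 W) (hy1 W)
    rw [← map_mul] at h
    exact h
  · refine ⟨fun W => ?_, loc_one Lg⟩
    have h := locAt_one (p := p) (v := W) (a := algebraMap K₁ L₁ a)
    simpa using h
  · rintro x ⟨hx1, hx2⟩
    refine ⟨fun W => ?_, loc_inv Lg hx2⟩
    have h := locAt_inv hp ha' (x := Units.map (algebraMap L L₁ : L →* L₁) x) (hx1 W)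
    rw [← map_inv] at h
    exact h
  · rintro x ⟨y, rfl⟩
    refine ⟨fun W => ?_, loc_pow Lg y⟩
    have h := locAt_pow (p := p) (v := W) (a := algebraMap K₁ L₁ a)
      (Units.map (algebraMap L L₁ : L →* L₁) y)
    rw [← map_pow] at h
    exact h
  · rintro g x ⟨hx1, hx2⟩
    refine ⟨fun W => ?_, loc_delta Lg g hx2⟩
    obtain ⟨-, -, -, -, hf⟩ := Pool.Agent.Helper30.RL.l_sqr p n K K₁ L L₁ hS
    obtain ⟨f, hf1, hf2⟩ := hf 1 g
    obtain ⟨W', -, hW'⟩ := exists_pull (K := K) f W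
    have h := locAt_aut f hW' (a := algebraMap K₁ L₁ a) (by rw [hf1]; rfl) (hx1 W')
    rw [hf2] at h
    exact h

end Pool.Agent.Helper48.PPO
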